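import Pool.Agent.D0H73.OP.Stm

/-!
Project OP (helper73), module BASE: stage 0 (`χ = 1`).
-/

set_option autoImplicit false

open Finset

namespace Pool.Agent.D0H88.OP

open Pool.Agent.D0H73.OP
open Pool.Agent.V1192.UOD (V)

theorem norm_cis (θ : ℝ) : ‖cis θ‖ = 1 := by
  unfold cis
  exact Complex.norm_exp_ofReal_mul_I θ

theorem cis_add (θ : ℝ) : cis (θ + 2 * Real.pi) = cis θ := by
  unfold cis
  push_cast
  rw [add_mul, Complex.exp_add, Complex.exp_two_pi_mul_I, mul_one]

theorem continuous_cis : Continuous cis := by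
  unfold cis
  fun_prop

theorem t_BASE : S_TOP → S_NUM → S_AAF → S_VAL → S_BASE := by
  intro hTOP hNUM hAAF hVAL p _ N l x y d m hN hDat hFac
  obtain ⟨hw, htau, htausum, hwsum, -, -⟩ := hNUM p
  have hχ : IsChr (p := p) (N := N) (n := l + 2) 0 (fun _ => 1) :=
    ⟨fun _ _ => (mul_one 1).symm, fun _ => norm_one, fun _ _ => rfl⟩
  refine ⟨fun _ => 1, hχ, ⟨0, ?_, ?_⟩, ?_⟩
  · unfold tt
    simp
  · rw [abs_zero]
    have := (hw 0).1
    positivity
  -- the functional
  set g : ℝ → ℂ := fun θ => ap x (Ph d (fun _ => 1) (sv 0 (cis θ / 2) 0)) with hg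
  have hsvb : ∀ (θ : ℝ) (i : Fin (l + 2)), ‖sv 0 (cis θ / 2) 0 i‖ ≤ 1 / 2 := by
    intro θ i
    unfold sv
    split_ifs with h1 h2 h3
    · omega
    · rw [norm_div, norm_cis]; norm_num
    · simp
    · simp
  have hcont : Continuous g := by
    rw [hg]
    unfold ap Ph
    apply continuous_finsetSum
    intro h _
    apply Continuous.mul continuous_const
    apply Continuous.mul continuous_const
    apply continuous_finsetProd
    intro i _
    apply Continuous.pow
    unfold sv
    split_ifs
    · exact continuous_const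
    · exact continuous_cis.div_const 2
    · exact continuous_const
    · exact continuous_const
  apply hTOP.1 (fun θ => cis θ / 2) g (continuous_cis.div_const 2) hcont
    (fun θ => by simp only [cis_add]) (fun θ => by simp only [hg, cis_add]) _ hTOP.2.2.2
  intro θ
  have hnorm : ‖cis θ / 2‖ = 1 / 2 := by rw [norm_div, norm_cis]; norm_num
  rw [hnorm]
  set s := sv (n := l + 2) 0 (cis θ / 2) 0 with hs
  set F : H p N (l + 2) → ℂ := Ph d (fun _ => 1) s with hF
  have hF1 : ∀ h, ‖F h‖ ≤ 1 := by
    intro h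
    rw [hF]
    unfold Ph
    rw [one_mul, norm_prod]
    apply Finset.prod_le_one
    · intro i _; positivity
    · intro i _
      rw [norm_pow]
      exact pow_le_one₀ (norm_nonneg _) ((hsvb θ i).trans (by norm_num))
  have h1 := hFac.near F hF1
  have h2 : ap aa F = ∑ i : Fin (l + 2), (w p i : ℂ) * Ex i F := (hAAF p N (l + 2) hN).1 F
  have h3 : ∀ i : Fin (l + 2), ‖Ex i F - s i‖ ≤ 2 * tau p i := by
    intro i
    exact (hVAL p N (l + 2) d m (fun i => tau p i) 0 (fun _ => 1) s hN hDat.pkg hχ
      (fun i hi => absurd hi (Nat.not_lt_zero _)) (fun i _ => hsvb θ i)).1 i (Nat.zero_le _)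
  have h4 : ∑ i : Fin (l + 2), (w p i : ℂ) * s i = cis θ / 2 := by
    rw [Finset.sum_eq_single (0 : Fin (l + 2))]
    · rw [hs]
      unfold sv
      simp [w]
    · intro i _ hi
      have hi0 : (i : ℕ) ≠ 0 := fun h => hi (Fin.ext h)
      rw [hs]
      unfold sv
      simp [hi0]
    · intro h; exact absurd (Finset.mem_univ _) h
  have h5 : ‖ap aa F - cis θ / 2‖ ≤ 4 * tau p 0 := by
    rw [h2, ← h4, ← Finset.sum_sub_distrib]
    refine (norm_sum_le _ _).trans ?_
    calc ∑ i : Fin (l + 2), ‖(w p i : ℂ) * Ex i F - (w p i : ℂ) * s i‖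
        ≤ ∑ i : Fin (l + 2), 2 * tau p i := by
          apply Finset.sum_le_sum
          intro i _
          rw [← mul_sub, norm_mul, Complex.norm_real, Real.norm_eq_abs, abs_of_pos (hw i).1]
          have := mul_le_mul (hw i).2.1 (h3 i) (norm_nonneg _) zero_le_one
          linarith
      _ = 2 * ∑ i : Fin (l + 2), tau p i := by rw [Finset.mul_sum]
      _ ≤ 4 * tau p 0 := by
          have := htausum 0 (l + 2)
          simp only [Nat.zero_le, Finset.filter_true] at this
          linarith
  have h6 : tau p 0 ≤ 1 / 10 ^ 10 := by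
    unfold tau
    have := pow_le_one₀ (n := 4) (hw 1).1.le (hw 1).2.1
    simp only [zero_add]
    exact div_le_div_of_nonneg_right this (by norm_num)
  calc ‖g θ - cis θ / 2‖ = ‖(ap x F - ap aa F) + (ap aa F - cis θ / 2)‖ := by
        congr 1
        simp only [hg]
        ring
    _ ≤ 1 / 6 + 4 * tau p 0 := (norm_add_le _ _).trans (add_le_add h1 h5)
    _ < 1 / 2 := by
        have : (4 : ℝ) * (1 / 10 ^ 10) < 1 / 3 := by norm_num
        linarith

end Pool.Agent.D0H88.OP
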